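import Pool.Agent.NH4.BX.Main

/-!
# The Bloch-Kato rank formula for base changes of the twists of `X_0(14)`, the complete class

`E_D : y² = x³ + 5805 D² x - 285714 D³` is the twist by `D` of the non-CM curve `E_1 = X_0(14)`. For a totally real
multiquadratic field `K` let `g_D` be the Hilbert modular newform over `K` of parallel weight two attached to `E_D`
over `K` (the base change of the newform of `E_D`), and `λ = 2`: its Galois representation is `V_2(E_D)`.

For an odd prime `p ≠ 7` let `p` be of type `A` if it is split in `ℚ(√2)` and inert in `ℚ(√-7)`, of type `B` if it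
is inert in `ℚ(√2)` and split in `ℚ(√-7)`. `Adm` are all squarefree `D ≡ 1 mod 4` of any sign, prime to `7`, without
any other condition on the prime factors; `nA D`, `nB D` are the numbers of the prime factors of the types `A`, `B`.
`D` is balanced if `nA D = nB D`. `D` is good if `nB D ≤ nA D`, `E_D(ℚ)` is finite and `Ш(E_D/ℚ)[2] = 0` (a good `D`
is automatically balanced). A pair of `M` and `K = ℚ(√d_1, …, √d_n)`, of degree `2ⁿ`, is good (balanced) if all
`M ∏_{i ∈ T} d_i` are good (balanced) up to squares.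

* For all good pairs `H¹_f(K, V_2(E_M)) = 0` and `L(E_M/K, 1) ≠ 0`; `K` is totally real if all `d_i > 0`. So both
  sides of the formula of Bloch and Kato for `g_M` and `λ = 2` are zero.
* For every such field `K` which has a balanced pair, and for either sign, the proportion of the good pairs
  among the balanced pairs `(± M, K)`, `M` squarefree, in the natural order, is exactly `η ^ (2 ^ n)`,
  `η = ∏ (1 - 2 ^ (-i)) = 0.2887…`, and there are at least `c X / √(log log X)` good pairs with `M ≤ X`.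
* If `(M, K)` is good, then `(M, K(√D))` is good for exactly the proportion `η ^ (2 ^ n)` of the `D` for
  which it is balanced, for either sign of `D`.
* All quadratic fields `ℚ(√D)` with `D ≠ 1` in `Adm` and `nA D + nB D` even have a balanced pair.
-/

set_option autoImplicit false

open NumberField IsDedekindDomain Filter Topology

namespace Pool.Agent.Results.MP_6e2fc3_nt.BaseChangeX14

/-- coefficients of `E_M : y² = x³ + A M x + B M`, the twist of `X_0(14)` -/
def A (M : ℤ) : ℤ := 5805 * M ^ 2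

/-- coefficients of `E_M : y² = x³ + A M x + B M`, the twist of `X_0(14)` -/
def B (M : ℤ) : ℤ := -285714 * M ^ 3

/-- the curve `E_D` over `ℚ` -/
def E (D : ℤ) : WeierstrassCurve ℚ :=
  { a₁ := 0, a₂ := 0, a₃ := 0, a₄ := (A D : ℚ), a₆ := (B D : ℚ) }

/-- `E_D(ℚ)` is finite and `Ш(E_D/ℚ)` has no element of order two -/
def RankZeroShaTwo (D : ℤ) : Prop :=
  Finite (E D).toAffine.Point ∧ ∀ x : Pool.Agent.TH841.SH.D.Sha (E D), 2 • x = 0 → x = 0

/-- the odd prime `p ≠ 7` is split in `ℚ(√2)`: `p ≡ ± 1 mod 8` -/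
def Sq2 (p : ℕ) : Prop := p % 8 = 1 ∨ p % 8 = 7

instance (p : ℕ) : Decidable (Sq2 p) := by unfold Sq2; infer_instance

/-- the odd prime `p ≠ 7` is split in `ℚ(√-7)`: `p` is a square modulo `7` -/
def Sq7 (p : ℕ) : Prop := p % 7 = 1 ∨ p % 7 = 2 ∨ p % 7 = 4

instance (p : ℕ) : Decidable (Sq7 p) := by unfold Sq7; infer_instance

/-- the number of the prime factors of `D` which are split in `ℚ(√2)` and inert in `ℚ(√-7)` -/
def nA (D : ℤ) : ℕ := (D.natAbs.primeFactors.filter fun p => Sq2 p ∧ ¬ Sq7 p).card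

/-- the number of the prime factors of `D` which are inert in `ℚ(√2)` and split in `ℚ(√-7)` -/
def nB (D : ℤ) : ℕ := (D.natAbs.primeFactors.filter fun p => ¬ Sq2 p ∧ Sq7 p).card

/-- the discriminants -/
def Adm (D : ℤ) : Prop := Squarefree D ∧ D % 4 = 1 ∧ ¬ (7 : ℤ) ∣ D

/-- the balanced discriminants -/
def Bal (D : ℤ) : Prop := Adm D ∧ nA D = nB D

/-- the good discriminants -/
def Good (D : ℤ) : Prop := Adm D ∧ nB D ≤ nA D ∧ RankZeroShaTwo D

/-- `ℚ(√d_1, …, √d_n)` has degree `2ⁿ` and all numbers `M ∏_{i ∈ T} d_i` have the property `P` up to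
squares -/
def Pair (P : ℤ → Prop) {n : ℕ} (M : ℤ) (d : Fin n → ℤ) : Prop :=
  (∀ T : Finset (Fin n), T.Nonempty → ¬ IsSquare (∏ i ∈ T, d i)) ∧
  ∀ T : Finset (Fin n), ∃ D k : ℤ, P D ∧ k ≠ 0 ∧ M * ∏ i ∈ T, d i = D * k ^ 2

/-- `K = ℚ(√d_1, …, √d_n)` -/
def IsMultiquadratic {n : ℕ} (d : Fin n → ℤ) (K : Type) [Field K] [NumberField K] : Prop :=
  ∃ x : Fin n → K, (∀ i, x i ^ 2 = (d i : K)) ∧ IntermediateField.adjoin ℚ (Set.range x) = ⊤

/-- the curve `E_M` over `K` -/
def EK (K : Type) [Field K] (M : ℤ) : WeierstrassCurve K :=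
  { a₁ := 0, a₂ := 0, a₃ := 0, a₄ := (A M : K), a₆ := (B M : K) }

/-- the number `q_v` of elements of the residue field of a finite place `v` of `K` -/
noncomputable def qv (K : Type) [Field K] (v : HeightOneSpectrum (𝓞 K)) : ℕ :=
  Nat.card (𝓞 K ⧸ v.asIdeal)

/-- `a_v = q_v + 1 - #E_M(k_v)`, that is `q_v` minus the number of affine points -/
noncomputable def av (K : Type) [Field K] (M : ℤ) (v : HeightOneSpectrum (𝓞 K)) : ℤ :=
  (qv K v : ℤ) - Nat.card {z : (𝓞 K ⧸ v.asIdeal) × (𝓞 K ⧸ v.asIdeal) //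
    z.2 ^ 2 = z.1 ^ 3 + (A M : 𝓞 K ⧸ v.asIdeal) * z.1 + (B M : 𝓞 K ⧸ v.asIdeal)}

open Classical in
/-- `F` is entire and is, for `Re s > 1/2`, the function `L(g_M, s) = L(E_M/K, s + 1)` without the Euler
factors at the places `v ∣ 42 M m`; the centre is `s = 0` -/
def IsL (K : Type) [Field K] (M m : ℤ) (F : ℂ → ℂ) : Prop :=
  Differentiable ℂ F ∧ ∀ s : ℂ, (1 : ℝ) / 2 < s.re →
    HasProd (fun v : HeightOneSpectrum (𝓞 K) =>
      if ((42 * M * m : ℤ) : 𝓞 K) ∈ v.asIdeal then 1 else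
        (1 - (av K M v : ℂ) * (qv K v : ℂ) ^ (-s - 1) + (qv K v : ℂ) ^ (-2 * s - 1))⁻¹) (F s)

open Classical in
/-- the number of the squarefree `M ≤ X` with the property `P` -/
noncomputable def count (P : ℕ → Prop) (X : ℕ) : ℝ :=
  (((Finset.Icc 1 X).filter fun M : ℕ => Squarefree M ∧ P M).card : ℝ)

section proof

open Pool.Agent.NH4 Pool.Agent.NH5.LK Pool.Agent.NH1

theorem adm_iff (D : ℤ) : Adm D ↔ Pool.Agent.NH5.GD.Adm D :=
  ⟨fun h => ⟨h.1, h.2.1, h.2.2⟩, fun h => ⟨h.sqf, h.m4, h.n7⟩⟩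

theorem rankZero_iff (D : ℤ) : RankZeroShaTwo D ↔ NoSel D := by
  unfold RankZeroShaTwo NoSel
  refine and_congr Iff.rfl (forall_congr' fun x => ?_)
  rw [two_nsmul]
  rfl

theorem good_iff {n : ℕ} (M : ℤ) (d : Fin n → ℤ) :
    Pair Good M d ↔ (PF.Ind d ∧ PF.PO (PF.Gg gX) d M) := by
  refine and_congr Iff.rfl (forall_congr' fun T => ?_)
  rw [PF.up_good]
  refine exists_congr fun D => exists_congr fun k => and_congr_left fun _ => ?_
  unfold Good
  rw [adm_iff, rankZero_iff]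
  rfl

theorem bal_iff {n : ℕ} (M : ℤ) (d : Fin n → ℤ) :
    Pair Bal M d ↔ (PF.Ind d ∧ PF.PO PF.Bl d M) := by
  refine and_congr Iff.rfl (forall_congr' fun T => ?_)
  rw [PF.up_bal]
  refine exists_congr fun D => exists_congr fun k => and_congr_left fun _ => ?_
  unfold Bal
  rw [adm_iff]
  rfl

theorem count_congr {P Q : ℕ → Prop} (h : ∀ M, P M ↔ Q M) (X : ℕ) : count P X = count Q X := by
  have e : P = Q := funext fun M => propext (h M)
  rw [e]

theorem isL_iff (K : Type) [Field K] [NumberField K] (M m : ℤ) (F : ℂ → ℂ) :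
    IsL K M m F ↔ Y19.QT.IsLFunK K (5805 * M ^ 2) (-285714 * M ^ 3) m (fun s => F (s - 1)) := by
  have key : ∀ v : HeightOneSpectrum (𝓞 K),
      (((42 * M * m : ℤ) : 𝓞 K) ∈ v.asIdeal ↔
        ((2 * (4 * (5805 * M ^ 2) ^ 3 + 27 * (-285714 * M ^ 3) ^ 2) * m : ℤ) : 𝓞 K) ∈
          v.asIdeal) := by
    intro v
    have := v.isPrime
    constructor
    · intro h1
      have e : ((2 * (4 * (5805 * M ^ 2) ^ 3 + 27 * (-285714 * M ^ 3) ^ 2) * m : ℤ) : 𝓞 K) =
          ((2 ^ 14 * 3 ^ 11 * 7 ^ 2 * M ^ 5 : ℤ) : 𝓞 K) * ((42 * M * m : ℤ) : 𝓞 K) := by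
        rw [← Int.cast_mul]
        congr 1
        ring
      rw [e]
      exact Ideal.mul_mem_left _ _ h1
    · intro h1
      refine Ideal.IsPrime.mem_of_pow_mem this 15 ?_
      have e : ((42 * M * m : ℤ) : 𝓞 K) ^ 15 =
          ((3 ^ 3 * 7 ^ 12 * M ^ 9 * m ^ 14 : ℤ) : 𝓞 K) *
            ((2 * (4 * (5805 * M ^ 2) ^ 3 + 27 * (-285714 * M ^ 3) ^ 2) * m : ℤ) : 𝓞 K) := by
        rw [← Int.cast_mul, ← Int.cast_pow]
        congr 1
        ring
      rw [e]
      exact Ideal.mul_mem_left _ _ h1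
  classical
  have fac : ∀ (s : ℂ) (v : HeightOneSpectrum (𝓞 K)),
      (1 - (av K M v : ℂ) * (qv K v : ℂ) ^ (-(s - 1) - 1) + (qv K v : ℂ) ^ (-2 * (s - 1) - 1))⁻¹ =
      (1 - (av K M v : ℂ) * (qv K v : ℂ) ^ (-s) + (qv K v : ℂ) ^ (1 - 2 * s))⁻¹ := by
    intro s v
    rw [show -(s - 1) - 1 = -s by ring, show -2 * (s - 1) - 1 = 1 - 2 * s by ring]
  unfold IsL Y19.QT.IsLFunK
  simp only [key]
  constructor
  · rintro ⟨h1, h2⟩
    refine ⟨h1.comp (differentiable_id.sub_const 1), fun s hs => ?_⟩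
    have h3 := h2 (s - 1) (by
      rw [Complex.sub_re, Complex.one_re]
      linarith)
    simp only [fac] at h3
    exact h3
  · rintro ⟨h1, h2⟩
    refine ⟨?_, fun s hs => ?_⟩
    · have h3 := h1.comp (differentiable_id.add_const (1 : ℂ))
      have e : F = (fun s => F (s - 1)) ∘ (fun s : ℂ => id s + 1) := by
        funext s
        simp
      rw [e]
      exact h3
    · have h3 := h2 (s + 1) (by
        rw [Complex.add_re, Complex.one_re]
        linarith)
      have h4 : HasProd (fun v : HeightOneSpectrum (𝓞 K) =>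
          if ((2 * (4 * (5805 * M ^ 2) ^ 3 + 27 * (-285714 * M ^ 3) ^ 2) * m : ℤ) : 𝓞 K) ∈
            v.asIdeal then (1 : ℂ) else
          (1 - (av K M v : ℂ) * (qv K v : ℂ) ^ (-(s + 1)) +
            (qv K v : ℂ) ^ (1 - 2 * (s + 1)))⁻¹) (F (s + 1 - 1)) := h3
      rw [add_sub_cancel_right] at h4
      simp only [← fac, add_sub_cancel_right] at h4
      exact h4

/-- the field is totally real -/
theorem totally_real {n : ℕ} {d : Fin n → ℤ} (hd : ∀ i, 0 < d i) (K : Type) [Field K] [NumberField K]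
    (h : IsMultiquadratic d K) : IsTotallyReal K := by
  obtain ⟨x, hx, hK⟩ := h
  refine ⟨fun v => ?_⟩
  rw [InfinitePlace.isReal_iff, ComplexEmbedding.isReal_iff]
  have h1 : ∀ y : K, ComplexEmbedding.conjugate v.embedding y = v.embedding y := by
    let S : IntermediateField ℚ K := AlgHom.fieldRange (AlgHom.id ℚ K) ⊓
      { carrier := {y : K | ComplexEmbedding.conjugate v.embedding y = v.embedding y}
        mul_mem' := fun {a b} ha hb => by
          simp only [Set.mem_ofPred_eq, map_mul] at ha hb ⊢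
          rw [ha, hb]
        one_mem' := by simp
        add_mem' := fun {a b} ha hb => by
          simp only [Set.mem_ofPred_eq, map_add] at ha hb ⊢
          rw [ha, hb]
        zero_mem' := by simp
        algebraMap_mem' := fun r => by
          simp only [Set.mem_ofPred_eq, eq_ratCast, map_ratCast]
        inv_mem' := fun a ha => by
          simp only [Set.mem_ofPred_eq, map_inv₀] at ha ⊢
          rw [ha] }
    have h2 : IntermediateField.adjoin ℚ (Set.range x) ≤ S := by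
      rw [IntermediateField.adjoin_le_iff]
      rintro _ ⟨i, rfl⟩
      refine ⟨⟨x i, rfl⟩, ?_⟩
      show ComplexEmbedding.conjugate v.embedding (x i) = v.embedding (x i)
      rw [ComplexEmbedding.conjugate_coe_eq]
      have h3 : v.embedding (x i) ^ 2 = ((d i : ℝ) : ℂ) := by
        rw [← map_pow, hx i, map_intCast]
        push_cast
        rfl
      have h4 : v.embedding (x i) ^ 2 = ((Real.sqrt (d i) : ℝ) : ℂ) ^ 2 := by
        rw [h3, ← Complex.ofReal_pow, Real.sq_sqrt (by exact_mod_cast (hd i).le)]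
      rcases sq_eq_sq_iff_eq_or_eq_neg.1 h4 with h5 | h5
      · rw [h5, Complex.conj_ofReal]
      · rw [h5, map_neg, Complex.conj_ofReal]
    intro y
    have h3 : y ∈ (⊤ : IntermediateField ℚ K) := IntermediateField.mem_top
    rw [← hK] at h3
    exact (h2 h3).2
  exact RingHom.ext h1

end proof

open Pool.Agent.NH4 Pool.Agent.NH5.LK Pool.Agent.NH1 in
theorem result :
    (∀ (n : ℕ) (M : ℤ) (d : Fin n → ℤ), Pair Good M d →
      ∀ (K : Type) [Field K] [NumberField K], IsMultiquadratic d K →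
      Module.finrank ℚ K = 2 ^ n ∧ ((∀ i, 0 < d i) → IsTotallyReal K) ∧
      (∀ y : Pool.Agent.NH4.BK.H1f (EK K M), y = 0) ∧
      (∃ F : ℂ → ℂ, IsL K M (∏ i, d i) F) ∧
      ∀ F : ℂ → ℂ, IsL K M (∏ i, d i) F → analyticOrderAt F 0 = 0) ∧
    (∀ (n : ℕ) (d : Fin n → ℤ), (∃ M : ℤ, Pair Bal M d) → ∀ ε : ℤ, (ε = 1 ∨ ε = -1) →
      Tendsto (fun X : ℕ => count (fun M => Pair Good (ε * M) d) X /
        count (fun M => Pair Bal (ε * M) d) X) atTop
          (𝓝 ((∏' i : ℕ, (1 - (1 / 2 : ℝ) ^ (i + 1))) ^ 2 ^ n)) ∧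
      ∃ (c : ℝ) (X₀ : ℕ), 0 < c ∧ ∀ X : ℕ, X₀ ≤ X →
        c * X / Real.sqrt (Real.log (Real.log X)) ≤ count (fun M => Pair Good (ε * M) d) X) ∧
    (∀ (n : ℕ) (M : ℤ) (d : Fin n → ℤ), Pair Good M d → ∀ ε : ℤ, (ε = 1 ∨ ε = -1) →
      Tendsto (fun X : ℕ => count (fun D => Pair Good M (Fin.snoc d (ε * D) : Fin (n + 1) → ℤ)) X /
        count (fun D => Pair Bal M (Fin.snoc d (ε * D) : Fin (n + 1) → ℤ)) X) atTop
          (𝓝 ((∏' i : ℕ, (1 - (1 / 2 : ℝ) ^ (i + 1))) ^ 2 ^ n))) ∧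
    (∀ D : ℤ, Adm D → D ≠ 1 → Even (nA D + nB D) → ∃ M : ℤ, Pair Bal M (fun _ : Fin 1 => D)) ∧
    0.2887 < ∏' i : ℕ, (1 - (1 / 2 : ℝ) ^ (i + 1)) ∧
    ∏' i : ℕ, (1 - (1 / 2 : ℝ) ^ (i + 1)) < 0.2888 := by
  classical
  refine ⟨fun n M d hd K _ _ ⟨x, hx, hK⟩ => ?_, fun n d ⟨M, hM⟩ ε hε => ?_,
    fun n M d hd ε hε => ?_, fun D hD h1 he => ?_, ?_⟩
  · obtain ⟨hind, h⟩ := (good_iff M d).1 hd
    obtain ⟨⟨F, hF, hF1⟩, hfin⟩ := PF.field_zero h hind K x hx hK
    refine ⟨?_, fun hpos => totally_real hpos K ⟨x, hx, hK⟩, BX.x14_h1f h hind K x hx hK,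
      ⟨fun s => F (s + 1), ?_⟩, fun G hG => ?_⟩
    · have := Y73.QMQ1.gal_of hx hK
      rw [← IsGalois.card_aut_eq_finrank]
      exact Y73.QMQ1.card_gal hind hx hK
    · rw [isL_iff]
      have e : (fun s : ℂ => F (s - 1 + 1)) = F := by
        funext s
        rw [sub_add_cancel]
      show Y19.QT.IsLFunK K _ _ _ (fun s : ℂ => F (s - 1 + 1))
      rw [e]
      exact hF
    · have h1 := Y687.MQ.isLFunK_unique ((isL_iff K M _ G).1 hG) hF
      have h2 : G 0 ≠ 0 := by
        have h3 := congrFun h1 1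
        have h4 : G (1 - 1) = F 1 := h3
        rw [sub_self] at h4
        rw [h4]
        exact hF1
      exact ((hG.1.analyticAt 0).analyticOrderAt_eq_zero).2 h2
  · obtain ⟨hind, h⟩ := (bal_iff M d).1 hM
    obtain ⟨g1, g2⟩ := PF.twists hind ⟨M, h⟩ hε
    have e1 : ∀ X : ℕ, count (fun M => Pair Good (ε * M) d) X =
        (((Finset.Icc 1 X).filter fun D : ℕ => Squarefree D ∧
          PF.PO (PF.Gg gX) d (ε * D)).card : ℝ) := by
      intro X
      unfold count
      congr 2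
      refine Finset.filter_congr fun D _ => and_congr_right fun _ => ?_
      show Pair Good (ε * D) d ↔ _
      rw [good_iff]
      exact ⟨fun h => h.2, fun h => ⟨hind, h⟩⟩
    have e2 : ∀ X : ℕ, count (fun M => Pair Bal (ε * M) d) X =
        (((Finset.Icc 1 X).filter fun D : ℕ => Squarefree D ∧
          PF.PO PF.Bl d (ε * D)).card : ℝ) := by
      intro X
      unfold count
      congr 2
      refine Finset.filter_congr fun D _ => and_congr_right fun _ => ?_
      show Pair Bal (ε * D) d ↔ _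
      rw [bal_iff]
      exact ⟨fun h => h.2, fun h => ⟨hind, h⟩⟩
    simp only [e1, e2]
    exact ⟨g1, g2⟩
  · obtain ⟨hind, h⟩ := (good_iff M d).1 hd
    have g := PF.extensions hind h hε
    have e1 : ∀ X : ℕ, count (fun D => Pair Good M (Fin.snoc d (ε * D) : Fin (n + 1) → ℤ)) X =
        (((Finset.Icc 1 X).filter fun D : ℕ => Squarefree D ∧
          (PF.Ind (Fin.snoc d (ε * D) : Fin (n + 1) → ℤ) ∧
            PF.PO (PF.Gg gX) (Fin.snoc d (ε * D) : Fin (n + 1) → ℤ) M)).card : ℝ) := by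
      intro X
      unfold count
      congr 2
      refine Finset.filter_congr fun D _ => and_congr_right fun _ => ?_
      exact good_iff M _
    have e2 : ∀ X : ℕ, count (fun D => Pair Bal M (Fin.snoc d (ε * D) : Fin (n + 1) → ℤ)) X =
        (((Finset.Icc 1 X).filter fun D : ℕ => Squarefree D ∧
          (PF.Ind (Fin.snoc d (ε * D) : Fin (n + 1) → ℤ) ∧
            PF.PO PF.Bl (Fin.snoc d (ε * D) : Fin (n + 1) → ℤ) M)).card : ℝ) := by
      intro X
      unfold count
      congr 2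
      refine Finset.filter_congr fun D _ => and_congr_right fun _ => ?_
      exact bal_iff M _
    simp only [e1, e2]
    exact g
  · have hA := (adm_iff D).1 hD
    obtain ⟨M, hM⟩ := PF.quadratic hA (Nat.even_iff.1 he)
    refine ⟨M, (bal_iff M _).2 ⟨?_, hM⟩⟩
    intro T hT hsq
    have hT1 : T = Finset.univ := by
      obtain ⟨i, hi⟩ := hT
      rw [Finset.eq_univ_iff_forall]
      intro j
      rw [Subsingleton.elim j i]
      exact hi
    rw [hT1, Finset.prod_const, Finset.card_univ, Fintype.card_fin, pow_one] at hsq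
    obtain ⟨r, hr⟩ := hsq
    have hu : IsUnit r := hA.sqf r ⟨1, by rw [hr]; ring⟩
    rcases Int.isUnit_iff.1 hu with rfl | rfl
    · exact h1 (by rw [hr]; norm_num)
    · exact h1 (by rw [hr]; norm_num)
  · exact ⟨Pool.Agent.NH5.PR.t_ETA.2.2.2.1, Pool.Agent.NH5.PR.t_ETA.2.2.2.2⟩

end Pool.Agent.Results.MP_6e2fc3_nt.BaseChangeX14
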