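import Mathlib
import Pool.Agent.NH6.Old.DominatedTwists

/-!
# Bloch–Kato Selmer groups of CM Hilbert modular forms of non-parallel weight

Let `q = 7` modulo `16` be a prime number and `K = ℚ(√-q)`; `2` splits in `K`. Let `F` be a totally
real field such that `M = F K` is contained in a Galois extension of `K` whose degree is a power of
`2` (it need not be abelian). Let `g` be a Hilbert modular newform over `F` with complex
multiplication by `M`, of any weights `(k_1, ..., k_d, 2)`, whose CM type consists of the places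
above one place of `K`, and let `λ` be a place above `2` of its field of coefficients. Then `V_g` is
induced from a character `Ψ` of `Gal(ℚ̄/M)` with values in `E_λ^*`. We assume that `Ψ = Ψ₀ χ`, where
`Ψ₀` has values in the units of `O_λ` and is trivial modulo `λ`, and `χ` is a character of
`Gal(ℚ̄/K)` of finite order, a power of `2`, unramified outside `2`. The free `ℤ_2`-module `O_λ` of
rank `N = [E_λ : ℚ_2]` with the action `Ψ₀` is a representation `ρ₁` in `GL_N(ℤ_2)`, whose image in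
`GL_N(𝔽_2)` is a `2`-group, and `V_g ⊗ E` is a direct summand of the representation `V` of
`Gal(ℚ̄/F)` that is induced from `ρ₁ ⊗ E(χ)`, for `E ⊇ E_λ`. At the places of `M` above the place
`w'` of `K` given by the embedding `ι₀` the Hodge–Tate weights of `Ψ` are `1 - k_i / 2 ≤ 0`, and at
the other places above `2` they are `k_i / 2 > 0`.

Theorem: `H¹_f(F, V) = 0`, hence `H¹_f(F, V_g) = 0`, if `M/K` and `Ψ₀` are unramified outside `2`.
If they are unramified outside `2` and `S`, then it is sufficient that the decomposition groups of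
the places of `K` above `S` contain elements `φ` for which the order of `χ(φ)` is greater than
`N [M : ℚ]`.
-/

set_option autoImplicit false

namespace Pool.Agent.Results.MP_6e2fc3_nt.CMFormsNonParallelWeights

open Pool.Agent.Results.MP_787500_nt.DominatedTwists
open scoped Matrix

/-- The field `M = F K`. -/
noncomputable def M (s : QBar) (F : IntermediateField ℚ QBar) : IntermediateField ℚ QBar := F ⊔ K s

lemma F_le (s : QBar) (F : IntermediateField ℚ QBar) : F ≤ M s F := le_sup_left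

lemma K_le (s : QBar) (F : IntermediateField ℚ QBar) : K s ≤ M s F := le_sup_right

/-- The inclusion of the Galois group of `M` in the one of `F`. -/
noncomputable def toF {s : QBar} {F : IntermediateField ℚ QBar} (σ : Gal (M s F)) : Gal F :=
  ⟨aut σ, IntermediateField.fixingSubgroup_antitone (F_le s F) σ.2⟩

section

variable {s : QBar} {F : IntermediateField ℚ QBar} {N : ℕ} {E : Type} [NormedField E]
  [NormedAlgebra ℚ_[2] E]

/-- `R` is the representation of the Galois group of `F` induced by `ρ₁ ⊗ E(χ)`: the functions `f`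
on the Galois group of `F` with `f (h g) = h f (g)` for `h` in the Galois group of `M`, in the
coordinates `v 0 = f (1)`, `v 1 = f (c₀)`, where `c₀` does not fix `K`. -/
structure IsInduced (χ : Gal (K s) → E) (ρ₁ : Gal (M s F) → Matrix (Fin N) (Fin N) ℤ_[2])
    (c₀ : Gal F) (R : Gal F → (Fin 2 → Fin N → E) →ₗ[E] (Fin 2 → Fin N → E)) : Prop where
  one : ∀ v, R 1 v = v
  mul : ∀ σ τ v, R (σ * τ) v = R σ (R τ v)
  moves : aut c₀ s ≠ s
  swap : ∀ v, R c₀ v 0 = v 1
  first : ∀ (σ : Gal (M s F)) (v : Fin 2 → Fin N → E),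
    R (toF σ) v 0 = act (K_le s F) χ ρ₁ σ (v 0)

/-- A continuous cocycle with values in the representation `R`. -/
structure IsCocycleF (R : Gal F → (Fin 2 → Fin N → E) →ₗ[E] (Fin 2 → Fin N → E))
    (c : Gal F → Fin 2 → Fin N → E) : Prop where
  cont : Continuous c
  mul : ∀ σ τ, c (σ * τ) = c σ + R σ (c τ)

open scoped Classical in
/-- The coordinate of `V/V⁺` at the place of `F` given by `ι`: the one of `ρ₁ ⊗ E(χ)` at the
embeddings above `w'` (where it has Hodge–Tate weights `≤ 0`), and the other one at the embeddings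
above the other place of `K`. -/
noncomputable def quo (s : QBar) (ι₀ ι : QBar →ₐ[ℚ] PadicAlgCl 2) : Fin 2 :=
  if ι s = ι₀ s then 0 else 1

/-- The Bloch–Kato conditions: the class is trivial on the inertia groups at the places prime to
`2`, and its image in `V/V⁺` is trivial on the decomposition groups at the places above `2`. -/
structure IsBlochKato (s : QBar) (ι₀ : QBar →ₐ[ℚ] PadicAlgCl 2)
    (R : Gal F → (Fin 2 → Fin N → E) →ₗ[E] (Fin 2 → Fin N → E)) (c : Gal F → Fin 2 → Fin N → E) :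
    Prop where
  odd : ∀ (p : ℕ) [Fact p.Prime] (ι : QBar →ₐ[ℚ] PadicAlgCl p), p ≠ 2 →
    ∃ y : Fin 2 → Fin N → E, ∀ σ : Gal F, aut σ ∈ Inr ι → c σ = R σ y - y
  two : ∀ ι : QBar →ₐ[ℚ] PadicAlgCl 2, ∃ y : Fin 2 → Fin N → E, ∀ σ : Gal F, aut σ ∈ Dec ι →
    c σ (quo s ι₀ ι) = (R σ y - y) (quo s ι₀ ι)

end

theorem result (q : ℕ) (hq : q.Prime) (hq7 : q % 16 = 7) (s : QBar) (hs : s ^ 2 = -(q : QBar))
    (ι₀ : QBar →ₐ[ℚ] PadicAlgCl 2) (F : IntermediateField ℚ QBar)
    (hF : InTwoExtension s (M s F)) (N : ℕ) (S : Set ℕ)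
    (ρ₁ : Gal (M s F) → Matrix (Fin N) (Fin N) ℤ_[2]) (hρ₁ : IsRep s S ρ₁)
    (E : Type) [NormedField E] [NormedAlgebra ℚ_[2] E] (χ : Gal (K s) → E) (hχ : IsTwist χ)
    (hS : ∀ p ∈ S, ∀ [Fact p.Prime] (ι : QBar →ₐ[ℚ] PadicAlgCl p), p ≠ 2 →
      ∃ φ, aut φ ∈ Dec ι ∧ N * Module.finrank ℚ (M s F) < orderOf (χ φ))
    (c₀ : Gal F) (R : Gal F → (Fin 2 → Fin N → E) →ₗ[E] (Fin 2 → Fin N → E))
    (hR : IsInduced χ ρ₁ c₀ R) (c : Gal F → Fin 2 → Fin N → E) (hc : IsCocycleF R c)
    (hbk : IsBlochKato s ι₀ R c) : ∃ y : Fin 2 → Fin N → E, ∀ σ, c σ = R σ y - y := by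
  have hK : K s ≤ M s F := K_le s F
  have htF : ∀ σ τ : Gal (M s F), toF (σ * τ) = toF σ * toF τ := fun σ τ => rfl
  have hact : ∀ (σ : Gal (M s F)) (v w : Fin N → E),
      act hK χ ρ₁ σ (v + w) = act hK χ ρ₁ σ v + act hK χ ρ₁ σ w := by
    intro σ v w
    unfold act
    rw [Matrix.mulVec_add, smul_add]
  -- the first coordinate
  obtain ⟨y0, hy0⟩ := Pool.Agent.Results.MP_787500_nt.DominatedTwists.result q hq hq7 s hs ι₀
    (M s F) hK hF N S ρ₁ hρ₁ E χ hχ hS (fun σ => c (toF σ) 0)
    { cont := by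
        have h1 : Continuous fun σ : Gal (M s F) => toF σ :=
          Continuous.subtype_mk continuous_subtype_val _
        exact (continuous_apply 0).comp (hc.cont.comp h1)
      mul := fun σ τ => by rw [htF, hc.mul, Pi.add_apply, hR.first] }
    { odd := fun p _ ι hp => by
        obtain ⟨y, hy⟩ := hbk.odd p ι hp
        refine ⟨y 0, fun σ hσ => ?_⟩
        show c (toF σ) 0 = _
        rw [hy (toF σ) hσ, Pi.sub_apply, hR.first]
      two := fun ι hι => by
        obtain ⟨y, hy⟩ := hbk.two ι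
        refine ⟨y 0, fun σ hσ => ?_⟩
        have h1 := hy (toF σ) hσ
        have h2 : quo s ι₀ ι = 0 := if_pos hι
        rw [h2] at h1
        show c (toF σ) 0 = _
        rw [h1, Pi.sub_apply, hR.first] }
  have hfirst : ∀ σ : Gal (M s F), c (toF σ) 0 = act hK χ ρ₁ σ y0 - y0 := fun σ =>
    hy0 σ (Set.mem_univ _)
  -- elements of the Galois group of `F`
  have hsgn : ∀ τ : Gal F, aut τ s = s ∨ aut τ s = -s := by
    intro τ
    have h1 : (aut τ s) ^ 2 = s ^ 2 := by rw [← map_pow, hs, map_neg, map_natCast]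
    exact sq_eq_sq_iff_eq_or_eq_neg.1 h1
  have hc0s : aut c₀ s = -s := (hsgn c₀).resolve_left hR.moves
  have hup : ∀ τ : Gal F, aut τ s = s → ∃ σ : Gal (M s F), toF σ = τ := by
    intro τ hτ
    refine ⟨⟨aut τ, ?_⟩, rfl⟩
    have h1 : F ⊔ K s ≤ IntermediateField.fixedField (Subgroup.zpowers (aut τ)) := by
      refine sup_le ?_ ?_
      · intro x hx
        rw [IntermediateField.mem_fixedField_iff]
        intro g hg
        have h2 : aut τ ∈ F.fixingSubgroup := τ.2
        have h3 : g ∈ F.fixingSubgroup := (Subgroup.zpowers_le.2 h2) hg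
        exact (IntermediateField.mem_fixingSubgroup_iff _ _).1 h3 x hx
      · refine IntermediateField.adjoin_le_iff.2 ?_
        rintro x hx
        rw [Set.mem_singleton_iff.1 hx]
        show s ∈ IntermediateField.fixedField (Subgroup.zpowers (aut τ))
        rw [IntermediateField.mem_fixedField_iff]
        intro g hg
        have h2 : aut τ ∈ MulAction.stabilizer Aut s := hτ
        have h3 : g ∈ MulAction.stabilizer Aut s := (Subgroup.zpowers_le.2 h2) hg
        exact h3
    show aut τ ∈ (F ⊔ K s).fixingSubgroup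
    rw [IntermediateField.mem_fixingSubgroup_iff]
    intro x hx
    have h2 := h1 hx
    rw [IntermediateField.mem_fixedField_iff] at h2
    exact h2 _ (Subgroup.mem_zpowers _)
  have hMs : ∀ σ : Gal (M s F), aut (toF σ) s = s := by
    intro σ
    have h2 : (aut σ) ∈ (M s F).fixingSubgroup := σ.2
    exact (IntermediateField.mem_fixingSubgroup_iff _ _).1 h2 s
      (hK (IntermediateField.mem_adjoin_simple_self ℚ s))
  have hautmul : ∀ σ τ : Gal F, aut (σ * τ) = aut σ * aut τ := fun σ τ => rfl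
  have hautinv : ∀ τ : Gal F, aut τ⁻¹ = (aut τ)⁻¹ := fun τ => rfl
  have hcinv : aut c₀⁻¹ s = -s := by
    rcases hsgn c₀⁻¹ with h1 | h1
    · exfalso
      apply hR.moves
      have h2 : aut c₀ (aut c₀⁻¹ s) = s := by
        rw [hautinv, ← AlgEquiv.mul_apply, mul_inv_cancel, AlgEquiv.one_apply]
      rwa [h1] at h2
    · exact h1
  -- conjugation by `c₀`
  have hconj : ∀ σ : Gal (M s F), ∃ σ' : Gal (M s F), toF σ' = c₀ * toF σ * c₀⁻¹ := by
    intro σ
    refine hup _ ?_
    rw [hautmul, hautmul, AlgEquiv.mul_apply, AlgEquiv.mul_apply, hcinv, map_neg, hMs, map_neg,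
      hc0s, neg_neg]
  have hsnd : ∀ (σ σ' : Gal (M s F)), toF σ' = c₀ * toF σ * c₀⁻¹ → ∀ v,
      R (toF σ) v 1 = act hK χ ρ₁ σ' (v 1) := by
    intro σ σ' h v
    have h1 : toF σ' * c₀ = c₀ * toF σ := by rw [h]; group
    rw [← hR.swap (R (toF σ) v), ← hR.mul, ← h1, hR.mul, hR.first, hR.swap]
  -- the second coordinate
  set z : Fin N → E := y0 + c c₀ 0 with hz
  have hsecond : ∀ (σ σ' : Gal (M s F)), toF σ' = c₀ * toF σ * c₀⁻¹ →
      c (toF σ) 1 = act hK χ ρ₁ σ' z - z := by
    intro σ σ' h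
    have h1 : toF σ' * c₀ = c₀ * toF σ := by rw [h]; group
    have h2 : c (toF σ' * c₀) 0 = c (c₀ * toF σ) 0 := by rw [h1]
    rw [hc.mul, hc.mul, Pi.add_apply, Pi.add_apply, hR.swap, hR.first, hfirst] at h2
    rw [hz, hact, eq_sub_iff_add_eq, ← sub_eq_zero]
    rw [← sub_eq_zero] at h2
    rw [← neg_eq_zero, ← h2]
    abel
  -- subtract the coboundary
  set y : Fin 2 → Fin N → E := ![y0, z] with hyd
  set c' : Gal F → Fin 2 → Fin N → E := fun τ => c τ - (R τ y - y) with hc'
  have hc'M : ∀ σ : Gal (M s F), c' (toF σ) = 0 := by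
    intro σ
    funext i
    fin_cases i
    · show (c (toF σ) - (R (toF σ) y - y)) 0 = 0
      rw [Pi.sub_apply, Pi.sub_apply, hR.first, hfirst]
      show _ - (act hK χ ρ₁ σ y0 - y0) = 0
      rw [sub_self]
    · show (c (toF σ) - (R (toF σ) y - y)) 1 = 0
      obtain ⟨σ', h⟩ := hconj σ
      rw [Pi.sub_apply, Pi.sub_apply, hsnd σ σ' h, hsecond σ σ' h]
      show _ - (act hK χ ρ₁ σ' z - z) = 0
      rw [sub_self]
  have hc'mul : ∀ σ τ, c' (σ * τ) = c' σ + R σ (c' τ) := by
    intro σ τ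
    show c (σ * τ) - (R (σ * τ) y - y) = c σ - (R σ y - y) + R σ (c τ - (R τ y - y))
    rw [hc.mul, hR.mul, map_sub, map_sub]
    abel
  have hinvar : ∀ σ : Gal (M s F), R (toF σ) (c' c₀) = c' c₀ := by
    intro σ
    obtain ⟨σ'', h⟩ : ∃ σ'' : Gal (M s F), toF σ'' = c₀⁻¹ * toF σ * c₀ := by
      refine hup _ ?_
      rw [hautmul, hautmul, AlgEquiv.mul_apply, AlgEquiv.mul_apply, hc0s, map_neg, hMs, map_neg,
        hcinv, neg_neg]
    have h1 : c' (toF σ * c₀) = R (toF σ) (c' c₀) := by
      rw [hc'mul, hc'M, zero_add]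
    have h2 : c' (c₀ * toF σ'') = c' c₀ := by
      rw [hc'mul, hc'M, map_zero, add_zero]
    have h3 : c₀ * toF σ'' = toF σ * c₀ := by rw [h]; group
    rw [h3, h1] at h2
    exact h2
  have hsq : R c₀ (c' c₀) = -c' c₀ := by
    obtain ⟨σ, h⟩ := hup (c₀ * c₀) (by
      rw [hautmul, AlgEquiv.mul_apply, hc0s, map_neg, hc0s, neg_neg])
    have h1 := hc'mul c₀ c₀
    rw [← h, hc'M] at h1
    exact (neg_eq_of_add_eq_zero_right h1.symm).symm
  have h2E : (2 : E) ≠ 0 := by
    have h1 : (2 : E) = algebraMap ℚ_[2] E 2 := by rw [map_ofNat]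
    rw [h1]
    exact (map_ne_zero _).2 two_ne_zero
  set u : Fin 2 → Fin N → E := (-(2 : E)⁻¹) • c' c₀ with hu
  have hu1 : R c₀ u = -u := by
    rw [hu, map_smul, hsq, smul_neg]
  have hu2 : ∀ σ : Gal (M s F), R (toF σ) u = u := by
    intro σ
    rw [hu, map_smul, hinvar]
  refine ⟨y + u, fun τ => ?_⟩
  have hmain : c' τ = R τ u - u := by
    rcases hsgn τ with h1 | h1
    · obtain ⟨σ, rfl⟩ := hup τ h1
      rw [hc'M, hu2, sub_self]
    · obtain ⟨σ, h⟩ := hup (τ * c₀⁻¹) (by
        rw [hautmul, AlgEquiv.mul_apply, hcinv, map_neg, h1, neg_neg])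
      have h2 : τ = toF σ * c₀ := by rw [h]; group
      rw [h2, hc'mul, hc'M, zero_add, hinvar, hR.mul, hu1, map_neg, hu2]
      have h3 : (2 : E) • u = -c' c₀ := by
        rw [hu, smul_smul]
        have : (2 : E) * -(2 : E)⁻¹ = -1 := by field_simp
        rw [this, neg_one_smul]
      have h4 : c' c₀ = -((2 : E) • u) := by rw [h3, neg_neg]
      rw [h4, two_smul]
      abel
  have h5 : c τ = c' τ + (R τ y - y) := by
    show c τ = c τ - (R τ y - y) + (R τ y - y)
    abel
  rw [h5, hmain, map_add]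
  abel

end Pool.Agent.Results.MP_6e2fc3_nt.CMFormsNonParallelWeights
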