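import Pool.Agent.NH4.BK.MQ

/-!
# The Bloch-Kato rank formula for base changes of the twists of `X_0(15)`, a positive proportion

`E_D : y² = x³ - 12987 D² x - 263466 D³` is the twist by `D` of the non-CM curve `E_1 = X_0(15)`. For a totally real
multiquadratic field `K` let `g_D` be the Hilbert modular newform over `K` of parallel weight two attached to `E_D`
over `K` (the base change of the newform of `E_D`), and `λ = 2`: its Galois representation is `V_2(E_D)`.

`D` is good if it is squarefree, `D < 0`, `3` splits and `5` is inert in `ℚ(√D)` (that is `D ≡ 1 mod 3` and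
`D ≡ 2, 3 mod 5`; `D` may be even), `E_D(ℚ)` is finite and `Ш(E_D/ℚ)[2] = 0`. A pair of `M` and
`K = ℚ(√d_1, …, √d_n)`, of degree `2ⁿ`, is good if all `M ∏_{i ∈ T} d_i` are good up to squares.

* For all good pairs `K` is totally real, `H¹_f(K, V_2(E_M)) = 0` and `L(E_M/K, 1) ≠ 0`: both sides of the formula
  of Bloch and Kato for `g_M` and `λ = 2` are zero.
* Let `K = ℚ(√d_1, …, √d_n)` be ANY totally real field of degree `2ⁿ` of this kind in which `3` and `5` split
  completely: `d_i > 0` squarefree, `d_i ≡ 1 mod 3`, `d_i ≡ 1, 4 mod 5`. Among the squarefree `M < 0`,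
  `M ≡ 1 mod 3`, `M ≡ 2, 3 mod 5`, in the natural order, exactly the proportion `η ^ (2 ^ n)`,
  `η = ∏ (1 - 2 ^ (-i)) = 0.2887…`, makes `(M, K)` good; this is the proportion `5/64 η ^ (2 ^ n)` of ALL
  squarefree integers `M`.
-/

set_option autoImplicit false

open NumberField IsDedekindDomain Filter Topology

namespace Pool.Agent.Results.MP_6e2fc3_nt.PositiveProportionBaseChange

/-- coefficients of `E_M : y² = x³ + A M x + B M`, the twist of `X_0(15)` -/
def A (M : ℤ) : ℤ := -12987 * M ^ 2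

/-- coefficients of `E_M : y² = x³ + A M x + B M`, the twist of `X_0(15)` -/
def B (M : ℤ) : ℤ := -263466 * M ^ 3

/-- the curve `E_D` over `ℚ` -/
def E (D : ℤ) : WeierstrassCurve ℚ :=
  { a₁ := 0, a₂ := 0, a₃ := 0, a₄ := (A D : ℚ), a₆ := (B D : ℚ) }

/-- `E_D(ℚ)` is finite and `Ш(E_D/ℚ)` has no element of order two -/
def RankZeroShaTwo (D : ℤ) : Prop :=
  Finite (E D).toAffine.Point ∧ ∀ x : Pool.Agent.TH841.SH.D.Sha (E D), 2 • x = 0 → x = 0

/-- the good discriminants -/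
def Good (D : ℤ) : Prop :=
  Squarefree D ∧ D < 0 ∧ D % 3 = 1 ∧ (D % 5 = 2 ∨ D % 5 = 3) ∧ RankZeroShaTwo D

/-- `ℚ(√d_1, …, √d_n)` has degree `2ⁿ` -/
def Indep {n : ℕ} (d : Fin n → ℤ) : Prop :=
  ∀ T : Finset (Fin n), T.Nonempty → ¬ IsSquare (∏ i ∈ T, d i)

/-- `ℚ(√d_1, …, √d_n)` has degree `2ⁿ` and all numbers `M ∏_{i ∈ T} d_i` are good up to squares -/
def GoodPair {n : ℕ} (M : ℤ) (d : Fin n → ℤ) : Prop :=
  Indep d ∧ ∀ T : Finset (Fin n), ∃ D k : ℤ, Good D ∧ k ≠ 0 ∧ M * ∏ i ∈ T, d i = D * k ^ 2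

/-- `K = ℚ(√d_1, …, √d_n)` -/
def IsMultiquadratic {n : ℕ} (d : Fin n → ℤ) (K : Type) [Field K] [NumberField K] : Prop :=
  ∃ x : Fin n → K, (∀ i, x i ^ 2 = (d i : K)) ∧ IntermediateField.adjoin ℚ (Set.range x) = ⊤

/-- the curve `E_M` over `K` -/
def EK (K : Type) [Field K] (M : ℤ) : WeierstrassCurve K :=
  { a₁ := 0, a₂ := 0, a₃ := 0, a₄ := (A M : K), a₆ := (B M : K) }

/-- the number `q_v` of elements of the residue field of a finite place `v` of `K` -/
noncomputable def qv (K : Type) [Field K] (v : HeightOneSpectrum (𝓞 K)) : ℕ :=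
  Nat.card (𝓞 K ⧸ v.asIdeal)

/-- `a_v = q_v + 1 - #E_M(k_v)`, that is `q_v` minus the number of affine points -/
noncomputable def av (K : Type) [Field K] (M : ℤ) (v : HeightOneSpectrum (𝓞 K)) : ℤ :=
  (qv K v : ℤ) - Nat.card {z : (𝓞 K ⧸ v.asIdeal) × (𝓞 K ⧸ v.asIdeal) //
    z.2 ^ 2 = z.1 ^ 3 + (A M : 𝓞 K ⧸ v.asIdeal) * z.1 + (B M : 𝓞 K ⧸ v.asIdeal)}

open Classical in
/-- `F` is entire and is, for `Re s > 1/2`, the function `L(g_M, s) = L(E_M/K, s + 1)` without the Euler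
factors at the places `v ∣ 30 M m`; the centre is `s = 0` -/
def IsL (K : Type) [Field K] (M m : ℤ) (F : ℂ → ℂ) : Prop :=
  Differentiable ℂ F ∧ ∀ s : ℂ, (1 : ℝ) / 2 < s.re →
    HasProd (fun v : HeightOneSpectrum (𝓞 K) =>
      if ((30 * M * m : ℤ) : 𝓞 K) ∈ v.asIdeal then 1 else
        (1 - (av K M v : ℂ) * (qv K v : ℂ) ^ (-s - 1) + (qv K v : ℂ) ^ (-2 * s - 1))⁻¹) (F s)

open Classical in
/-- the number of the squarefree integers `M`, `|M| ≤ X`, with the property `P` -/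
noncomputable def count (P : ℤ → Prop) (X : ℕ) : ℝ :=
  (((Finset.Icc (-(X : ℤ)) X).filter fun M : ℤ => Squarefree M ∧ P M).card : ℝ)

/-- the constant `η` -/
noncomputable def eta : ℝ := ∏' i : ℕ, (1 - (1 / 2 : ℝ) ^ (i + 1))

section proof

open Pool.Agent.NH4 Pool.Agent.XV.T
open Pool.Agent.NH4.XH (S_HOUT)

theorem rankZero_iff (D : ℤ) : RankZeroShaTwo D ↔ RZ D := by
  unfold RankZeroShaTwo RZ
  refine and_congr Iff.rfl (forall_congr' fun x => ?_)
  rw [two_nsmul]
  rfl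

theorem good_iff (h : S_HOUT) {n : ℕ} (M : ℤ) (d : Fin n → ℤ) :
    GoodPair M d ↔ (PF.Ind d ∧ XH.PG (fun _ => XH.Gs) (XH.gT d) M) := by
  refine and_congr Iff.rfl (forall_congr' fun T => ?_)
  rw [XH.upB_good h]
  refine exists_congr fun D => exists_congr fun k => and_congr_left fun _ => ?_
  unfold Good XH.DB
  rw [rankZero_iff]
  tauto

theorem isL_iff (K : Type) [Field K] [NumberField K] (M m : ℤ) (F : ℂ → ℂ) :
    IsL K M m F ↔ Y19.QT.IsLFunK K (-12987 * M ^ 2) (-263466 * M ^ 3) m (fun s => F (s - 1)) := by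
  have key : ∀ v : HeightOneSpectrum (𝓞 K),
      (((30 * M * m : ℤ) : 𝓞 K) ∈ v.asIdeal ↔
        ((2 * (4 * (-12987 * M ^ 2) ^ 3 + 27 * (-263466 * M ^ 3) ^ 2) * m : ℤ) : 𝓞 K) ∈
          v.asIdeal) := by
    intro v
    have := v.isPrime
    constructor
    · intro h1
      have e : ((2 * (4 * (-12987 * M ^ 2) ^ 3 + 27 * (-263466 * M ^ 3) ^ 2) * m : ℤ) : 𝓞 K) =
          ((-(2 ^ 8 * 3 ^ 15 * 5 ^ 3) * M ^ 5 : ℤ) : 𝓞 K) * ((30 * M * m : ℤ) : 𝓞 K) := by
        rw [← Int.cast_mul]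
        congr 1
        ring
      rw [e]
      exact Ideal.mul_mem_left _ _ h1
    · intro h1
      refine Ideal.IsPrime.mem_of_pow_mem this 16 ?_
      have e : ((30 * M * m : ℤ) : 𝓞 K) ^ 16 =
          ((-(2 ^ 7 * 5 ^ 12) * M ^ 10 * m ^ 15 : ℤ) : 𝓞 K) *
            ((2 * (4 * (-12987 * M ^ 2) ^ 3 + 27 * (-263466 * M ^ 3) ^ 2) * m : ℤ) : 𝓞 K) := by
        rw [← Int.cast_mul, ← Int.cast_pow]
        congr 1
        ring
      rw [e]
      exact Ideal.mul_mem_left _ _ h1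
  classical
  have fac : ∀ (s : ℂ) (v : HeightOneSpectrum (𝓞 K)),
      (1 - (av K M v : ℂ) * (qv K v : ℂ) ^ (-(s - 1) - 1) + (qv K v : ℂ) ^ (-2 * (s - 1) - 1))⁻¹ =
      (1 - (av K M v : ℂ) * (qv K v : ℂ) ^ (-s) + (qv K v : ℂ) ^ (1 - 2 * s))⁻¹ := by
    intro s v
    rw [show -(s - 1) - 1 = -s by ring, show -2 * (s - 1) - 1 = 1 - 2 * s by ring]
  unfold IsL Y19.QT.IsLFunK
  simp only [key]
  constructor
  · rintro ⟨h1, h2⟩
    refine ⟨h1.comp (differentiable_id.sub_const 1), fun s hs => ?_⟩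
    have h3 := h2 (s - 1) (by
      rw [Complex.sub_re, Complex.one_re]
      linarith)
    simp only [fac] at h3
    exact h3
  · rintro ⟨h1, h2⟩
    refine ⟨?_, fun s hs => ?_⟩
    · have h3 := h1.comp (differentiable_id.add_const (1 : ℂ))
      have e : F = (fun s => F (s - 1)) ∘ (fun s : ℂ => id s + 1) := by
        funext s
        simp
      rw [e]
      exact h3
    · have h3 := h2 (s + 1) (by
        rw [Complex.add_re, Complex.one_re]
        linarith)
      have h4 : HasProd (fun v : HeightOneSpectrum (𝓞 K) =>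
          if ((2 * (4 * (-12987 * M ^ 2) ^ 3 + 27 * (-263466 * M ^ 3) ^ 2) * m : ℤ) : 𝓞 K) ∈
            v.asIdeal then (1 : ℂ) else
          (1 - (av K M v : ℂ) * (qv K v : ℂ) ^ (-(s + 1)) +
            (qv K v : ℂ) ^ (1 - 2 * (s + 1)))⁻¹) (F (s + 1 - 1)) := h3
      rw [add_sub_cancel_right] at h4
      simp only [← fac, add_sub_cancel_right] at h4
      exact h4

theorem count_eq (P : ℤ → Prop) (X : ℕ) : count P X = XF.cz P X := rfl

theorem isA_of {D : ℤ} (h : 0 < D ∧ Squarefree D ∧ D % 3 = 1 ∧ (D % 5 = 1 ∨ D % 5 = 4)) : XH.IsA D :=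
  ⟨D, 1, h, one_ne_zero, by ring⟩

/-- the field is totally real -/
theorem totally_real {n : ℕ} {d : Fin n → ℤ} (hd : ∀ i, 0 < d i) (K : Type) [Field K] [NumberField K]
    (h : IsMultiquadratic d K) : IsTotallyReal K := by
  obtain ⟨x, hx, hK⟩ := h
  refine ⟨fun v => ?_⟩
  rw [InfinitePlace.isReal_iff, ComplexEmbedding.isReal_iff]
  have h1 : ∀ y : K, ComplexEmbedding.conjugate v.embedding y = v.embedding y := by
    let S : IntermediateField ℚ K := AlgHom.fieldRange (AlgHom.id ℚ K) ⊓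
      { carrier := {y : K | ComplexEmbedding.conjugate v.embedding y = v.embedding y}
        mul_mem' := fun {a b} ha hb => by
          simp only [Set.mem_ofPred_eq, map_mul] at ha hb ⊢
          rw [ha, hb]
        one_mem' := by simp
        add_mem' := fun {a b} ha hb => by
          simp only [Set.mem_ofPred_eq, map_add] at ha hb ⊢
          rw [ha, hb]
        zero_mem' := by simp
        algebraMap_mem' := fun r => by
          simp only [Set.mem_ofPred_eq, eq_ratCast, map_ratCast]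
        inv_mem' := fun a ha => by
          simp only [Set.mem_ofPred_eq, map_inv₀] at ha ⊢
          rw [ha] }
    have h2 : IntermediateField.adjoin ℚ (Set.range x) ≤ S := by
      rw [IntermediateField.adjoin_le_iff]
      rintro _ ⟨i, rfl⟩
      refine ⟨⟨x i, rfl⟩, ?_⟩
      show ComplexEmbedding.conjugate v.embedding (x i) = v.embedding (x i)
      rw [ComplexEmbedding.conjugate_coe_eq]
      have h3 : v.embedding (x i) ^ 2 = ((d i : ℝ) : ℂ) := by
        rw [← map_pow, hx i, map_intCast]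
        push_cast
        rfl
      have h4 : v.embedding (x i) ^ 2 = ((Real.sqrt (d i) : ℝ) : ℂ) ^ 2 := by
        rw [h3, ← Complex.ofReal_pow, Real.sq_sqrt (by exact_mod_cast (hd i).le)]
      rcases sq_eq_sq_iff_eq_or_eq_neg.1 h4 with h5 | h5
      · rw [h5, Complex.conj_ofReal]
      · rw [h5, map_neg, Complex.conj_ofReal]
    intro y
    have h3 : y ∈ (⊤ : IntermediateField ℚ K) := IntermediateField.mem_top
    rw [← hK] at h3
    exact (h2 h3).2
  exact RingHom.ext h1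

end proof

open Pool.Agent.NH4 Pool.Agent.XV.T in
/-- **Main theorem.** -/
theorem result :
    (∀ (n : ℕ) (M : ℤ) (d : Fin n → ℤ), GoodPair M d →
      ∀ (K : Type) [Field K] [NumberField K], IsMultiquadratic d K →
      IsTotallyReal K ∧ Module.finrank ℚ K = 2 ^ n ∧
      (∀ y : Pool.Agent.NH4.BK.H1f (EK K M), y = 0) ∧
      (∃ F : ℂ → ℂ, IsL K M (∏ i, d i) F) ∧
      ∀ F : ℂ → ℂ, IsL K M (∏ i, d i) F → analyticOrderAt F 0 = 0) ∧
    (∀ (n : ℕ) (d : Fin n → ℤ), Indep d →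
      (∀ i, 0 < d i ∧ Squarefree (d i) ∧ d i % 3 = 1 ∧ (d i % 5 = 1 ∨ d i % 5 = 4)) →
      Tendsto (fun X : ℕ => count (fun M => GoodPair M d) X /
        count (fun M => M < 0 ∧ M % 3 = 1 ∧ (M % 5 = 2 ∨ M % 5 = 3)) X) atTop (𝓝 (eta ^ 2 ^ n)) ∧
      Tendsto (fun X : ℕ => count (fun M => GoodPair M d) X / count (fun _ => True) X) atTop
        (𝓝 (5 / 64 * eta ^ 2 ^ n))) ∧
    0.2887 < eta ∧ eta < 0.2888 := by
  classical
  have h : XH.S_HOUT := XH.f_HOUT
  have hJ := XG.f_XGDEN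
  refine ⟨fun n M d hd K _ _ hKd => ?_, fun n d hd hA => ?_, ?_⟩
  · obtain ⟨hind, hP⟩ := (good_iff h M d).1 hd
    have hpos : ∀ i, 0 < d i := by
      intro i
      have h1 := hP {i}
      have h2 := hP ∅
      unfold XH.gT at h1 h2
      rw [Finset.prod_singleton] at h1
      rw [Finset.prod_empty, mul_one] at h2
      exact XH.isA_pos (h2.div h1)
    refine ⟨totally_real hpos K hKd, ?_⟩
    obtain ⟨x, hx, hK⟩ := hKd
    obtain ⟨⟨F, hF, hF1⟩, -⟩ := XH.field_zero h hP hind K x hx hK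
    refine ⟨?_, (BK.mq_h1f h hP hind K x hx hK).2, ⟨fun s => F (s + 1), ?_⟩, fun G hG => ?_⟩
    · have := Pool.Agent.Y73.QMQ1.gal_of hx hK
      rw [← IsGalois.card_aut_eq_finrank]
      exact Pool.Agent.Y73.QMQ1.card_gal hind hx hK
    · rw [isL_iff]
      have e : (fun s : ℂ => F (s - 1 + 1)) = F := by
        funext s
        rw [sub_add_cancel]
      show Y19.QT.IsLFunK K _ _ _ (fun s : ℂ => F (s - 1 + 1))
      rw [e]
      exact hF
    · have h1 := Pool.Agent.Y687.MQ.isLFunK_unique ((isL_iff K M _ G).1 hG) hF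
      have h2 : G 0 ≠ 0 := by
        have h3 := congrFun h1 1
        have h4 : G (1 - 1) = F 1 := h3
        rw [sub_self] at h4
        rw [h4]
        exact hF1
      exact ((hG.1.analyticAt 0).analyticOrderAt_eq_zero).2 h2
  · have g := XH.twists_z hJ (d := d) hd (fun i => isA_of (hA i))
    have e1 : ∀ X : ℕ, count (fun M => GoodPair M d) X =
        XF.cz (fun M => XH.PG (fun _ => XH.Gs) (XH.gT d) M) X := by
      intro X
      rw [count_eq]
      congr 1
      funext M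
      rw [good_iff h]
      exact propext ⟨fun h => h.2, fun h => ⟨hd, h⟩⟩
    simp only [e1, count_eq]
    exact g
  · exact ⟨Pool.Agent.NH5.PR.t_ETA.2.2.2.1, Pool.Agent.NH5.PR.t_ETA.2.2.2.2⟩

end Pool.Agent.Results.MP_6e2fc3_nt.PositiveProportionBaseChange
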